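import Mathlib

/-!
# Asymptotic multiplicativity, abstract part
-/

set_option autoImplicit false

open scoped Topology Pointwise
open Set MeasureTheory Filter

noncomputable section

namespace Pool.Agent.TH225.SDK2

section Abstract

variable {X : Type} [TopologicalSpace X] [CompactSpace X] [MeasurableSpace X] [BorelSpace X]
variable {G : Type} [AddCommGroup G] [DecidableEq G]

/-- asymptotically preserved multipliers of degree `m` -/
def Good (ν : Measure X) (H : G → Submodule ℂ (X → ℂ)) (L : Filter G) (m : G) (g : X → ℂ) : Prop :=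
  ∀ ε : ℝ, 0 < ε → ∀ᶠ k in L, ∀ u ∈ H k, ∃ v ∈ H (k + m),
    ∫ z, ‖g z * u z - v z‖ ^ 2 ∂ν ≤ ε * ∫ z, ‖u z‖ ^ 2 ∂ν

theorem integrable_of_cont (ν : Measure X) [IsFiniteMeasure ν] {E : Type} [NormedAddCommGroup E]
    {f : X → E} (hf : Continuous f) : Integrable f ν :=
  hf.integrable_of_hasCompactSupport (HasCompactSupport.of_compactSpace _)

theorem int_add_le (ν : Measure X) [IsFiniteMeasure ν] {f g h : X → ℂ} (hf : Continuous f)
    (hg : Continuous g) (hh : ∀ z, h z = f z + g z) :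
    ∫ z, ‖h z‖ ^ 2 ∂ν ≤ 2 * ∫ z, ‖f z‖ ^ 2 ∂ν + 2 * ∫ z, ‖g z‖ ^ 2 ∂ν := by
  have h1 : Integrable (fun z => ‖f z‖ ^ 2) ν := integrable_of_cont ν (hf.norm.pow 2)
  have h2 : Integrable (fun z => ‖g z‖ ^ 2) ν := integrable_of_cont ν (hg.norm.pow 2)
  have h3 : Integrable (fun z => ‖h z‖ ^ 2) ν := by
    have : h = fun z => f z + g z := funext hh
    rw [this]
    exact integrable_of_cont ν ((hf.add hg).norm.pow 2)
  rw [← integral_const_mul, ← integral_const_mul, ← integral_add (h1.const_mul 2) (h2.const_mul 2)]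
  refine integral_mono h3 ((h1.const_mul 2).add (h2.const_mul 2)) fun z => ?_
  simp only [Pi.add_apply]
  rw [hh z]
  have := norm_add_le (f z) (g z)
  nlinarith [sq_nonneg (‖f z‖ - ‖g z‖), norm_nonneg (f z + g z), norm_nonneg (f z),
    norm_nonneg (g z)]

theorem int_mul_le (ν : Measure X) [IsFiniteMeasure ν] {f g : X → ℂ} (hf : Continuous f)
    (hg : Continuous g) {M : ℝ} (hM : 0 ≤ M) (hb : ∀ z, ‖f z‖ ≤ M) :
    ∫ z, ‖f z * g z‖ ^ 2 ∂ν ≤ M ^ 2 * ∫ z, ‖g z‖ ^ 2 ∂ν := by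
  rw [← integral_const_mul]
  refine integral_mono (integrable_of_cont ν ((hf.mul hg).norm.pow 2))
    ((integrable_of_cont ν (hg.norm.pow 2)).const_mul _) fun z => ?_
  simp only [norm_mul, mul_pow]
  have h1 : ‖f z‖ ^ 2 ≤ M ^ 2 := pow_le_pow_left₀ (norm_nonneg _) (hb z) 2
  exact mul_le_mul_of_nonneg_right h1 (by positivity)

theorem int_nonneg (ν : Measure X) (f : X → ℂ) : 0 ≤ ∫ z, ‖f z‖ ^ 2 ∂ν :=
  integral_nonneg fun z => by positivity

theorem exists_bound {g : X → ℂ} (hg : Continuous g) : ∃ M : ℝ, 0 ≤ M ∧ ∀ z, ‖g z‖ ≤ M := by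
  obtain ⟨C, hC⟩ := isCompact_univ.exists_bound_of_continuousOn hg.continuousOn
  exact ⟨max C 0, le_max_right _ _, fun z => (hC z (mem_univ z)).trans (le_max_left _ _)⟩

variable {ν : Measure X} {H : G → Submodule ℂ (X → ℂ)} {L : Filter G}

theorem Good.zero (m : G) : Good ν H L m (fun _ => 0) := by
  intro ε hε
  refine Filter.Eventually.of_forall fun k u _ => ⟨0, Submodule.zero_mem _, ?_⟩
  have := int_nonneg ν u
  simp only [zero_mul, Pi.zero_apply, sub_zero, norm_zero]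
  simpa using by positivity

theorem Good.one : Good ν H L 0 (fun _ => 1) := by
  intro ε hε
  refine Filter.Eventually.of_forall fun k u hu => ⟨u, by simpa using hu, ?_⟩
  have := int_nonneg ν u
  simp only [one_mul, sub_self, norm_zero]
  simpa using by positivity

theorem Good.add [IsFiniteMeasure ν] (hH : ∀ k, ∀ u ∈ H k, Continuous u) {m : G} {g h : X → ℂ}
    (cg : Continuous g) (ch : Continuous h) (hg : Good ν H L m g) (hh : Good ν H L m h) :
    Good ν H L m (fun z => g z + h z) := by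
  intro ε hε
  filter_upwards [hg (ε / 4) (by positivity), hh (ε / 4) (by positivity)] with k h1 h2 u hu
  obtain ⟨v, hv, hv'⟩ := h1 u hu
  obtain ⟨w, hw, hw'⟩ := h2 u hu
  have cu := hH k u hu
  have cv := hH _ v hv
  have cw := hH _ w hw
  refine ⟨v + w, Submodule.add_mem _ hv hw, ?_⟩
  have := int_add_le ν (f := fun z => g z * u z - v z) (g := fun z => h z * u z - w z)
    (h := fun z => (g z + h z) * u z - (v + w) z) ((cg.mul cu).sub cv) ((ch.mul cu).sub cw)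
    (fun z => by simp only [Pi.add_apply]; ring)
  linarith

theorem Good.smul {m : G} {g : X → ℂ} (hg : Good ν H L m g) (c : ℂ) :
    Good ν H L m (fun z => c * g z) := by
  intro ε hε
  filter_upwards [hg (ε / (‖c‖ ^ 2 + 1)) (by positivity)] with k h1 u hu
  obtain ⟨v, hv, hv'⟩ := h1 u hu
  refine ⟨c • v, Submodule.smul_mem _ c hv, ?_⟩
  have h2 : ∀ z, ‖c * g z * u z - (c • v) z‖ ^ 2 = ‖c‖ ^ 2 * ‖g z * u z - v z‖ ^ 2 := by
    intro z
    rw [← mul_pow, ← norm_mul, Pi.smul_apply, smul_eq_mul]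
    congr 2
    ring
  simp only [h2]
  rw [integral_const_mul]
  have h3 := int_nonneg ν u
  calc ‖c‖ ^ 2 * ∫ z, ‖g z * u z - v z‖ ^ 2 ∂ν
      ≤ ‖c‖ ^ 2 * (ε / (‖c‖ ^ 2 + 1) * ∫ z, ‖u z‖ ^ 2 ∂ν) := by gcongr
    _ = (‖c‖ ^ 2 / (‖c‖ ^ 2 + 1)) * (ε * ∫ z, ‖u z‖ ^ 2 ∂ν) := by ring
    _ ≤ 1 * (ε * ∫ z, ‖u z‖ ^ 2 ∂ν) := by
        gcongr
        rw [div_le_one (by positivity)]
        linarith
    _ = ε * ∫ z, ‖u z‖ ^ 2 ∂ν := one_mul _

theorem Good.mul [IsFiniteMeasure ν] (hH : ∀ k, ∀ u ∈ H k, Continuous u)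
    (hL : ∀ m, Tendsto (fun k => k + m) L L) {m n : G} {g h : X → ℂ}
    (cg : Continuous g) (ch : Continuous h) (hg : Good ν H L m g) (hh : Good ν H L n h) :
    Good ν H L (m + n) (fun z => g z * h z) := by
  intro ε hε
  obtain ⟨M, hM, hbg⟩ := exists_bound cg
  obtain ⟨N, hN, hbh⟩ := exists_bound ch
  set δ : ℝ := min 1 (ε / (2 * M ^ 2 + 4 + 4 * N ^ 2 + 1)) with hδ
  have hδ0 : 0 < δ := lt_min one_pos (by positivity)
  have hδ1 : δ ≤ 1 := min_le_left _ _
  have hδ2 : δ * (2 * M ^ 2 + 4 + 4 * N ^ 2 + 1) ≤ ε := by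
    have := min_le_right 1 (ε / (2 * M ^ 2 + 4 + 4 * N ^ 2 + 1))
    rw [← hδ, le_div_iff₀ (by positivity)] at this
    exact this
  filter_upwards [hh δ hδ0, (hL n).eventually (hg δ hδ0)] with k h1 h2 u hu
  obtain ⟨v, hv, hv'⟩ := h1 u hu
  obtain ⟨w, hw, hw'⟩ := h2 v hv
  have cu := hH k u hu
  have cv := hH _ v hv
  have cw := hH _ w hw
  refine ⟨w, by rwa [add_assoc, add_comm n m] at hw, ?_⟩
  have e1 := int_add_le ν (f := fun z => g z * (h z * u z - v z)) (g := fun z => g z * v z - w z)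
    (h := fun z => g z * h z * u z - w z) (cg.mul ((ch.mul cu).sub cv)) ((cg.mul cv).sub cw)
    (fun z => by ring)
  have e2 : ∫ z, ‖g z * (h z * u z - v z)‖ ^ 2 ∂ν ≤ M ^ 2 * ∫ z, ‖h z * u z - v z‖ ^ 2 ∂ν :=
    int_mul_le ν cg ((ch.mul cu).sub cv) hM hbg
  have e3 := int_add_le ν (f := fun z => v z - h z * u z) (g := fun z => h z * u z)
    (h := v) (cv.sub (ch.mul cu)) (ch.mul cu) (fun z => by ring)
  have e4 := int_mul_le ν ch cu hN hbh
  have e5 : ∫ z, ‖v z - h z * u z‖ ^ 2 ∂ν = ∫ z, ‖h z * u z - v z‖ ^ 2 ∂ν := by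
    simp only [norm_sub_rev]
  have h3 := int_nonneg ν u
  set U := ∫ z, ‖u z‖ ^ 2 ∂ν
  set D := ∫ z, ‖h z * u z - v z‖ ^ 2 ∂ν
  set W := ∫ z, ‖g z * v z - w z‖ ^ 2 ∂ν
  set V := ∫ z, ‖v z‖ ^ 2 ∂ν
  have e6 : V ≤ 2 * (δ * U) + 2 * (N ^ 2 * U) := by
    calc V ≤ 2 * D + 2 * (N ^ 2 * U) := by rw [e5] at e3; linarith
      _ ≤ _ := by linarith
  calc ∫ z, ‖g z * h z * u z - w z‖ ^ 2 ∂ν
      ≤ 2 * (M ^ 2 * D) + 2 * W := by linarith
    _ ≤ 2 * (M ^ 2 * (δ * U)) + 2 * (δ * V) := by gcongr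
    _ ≤ 2 * (M ^ 2 * (δ * U)) + 2 * (δ * (2 * (δ * U) + 2 * (N ^ 2 * U))) := by gcongr
    _ ≤ 2 * (M ^ 2 * (δ * U)) + 2 * (δ * (2 * (1 * U) + 2 * (N ^ 2 * U))) := by gcongr
    _ = (δ * (2 * M ^ 2 + 4 + 4 * N ^ 2)) * U := by ring
    _ ≤ ε * U := by
        gcongr
        nlinarith

theorem good_of_approx [IsFiniteMeasure ν] (hH : ∀ k, ∀ u ∈ H k, Continuous u) {m : G} {g : X → ℂ}
    (cg : Continuous g)
    (h : ∀ δ : ℝ, 0 < δ → ∃ g' : X → ℂ, Continuous g' ∧ Good ν H L m g' ∧ ∀ z, ‖g z - g' z‖ ≤ δ) :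
    Good ν H L m g := by
  intro ε hε
  obtain ⟨g', cg', hg', hd⟩ := h (min 1 (ε / 4)) (lt_min one_pos (by positivity))
  filter_upwards [hg' (ε / 4) (by positivity)] with k h1 u hu
  obtain ⟨v, hv, hv'⟩ := h1 u hu
  have cu := hH k u hu
  have cv := hH _ v hv
  refine ⟨v, hv, ?_⟩
  have e1 := int_add_le ν (f := fun z => (g z - g' z) * u z) (g := fun z => g' z * u z - v z)
    (h := fun z => g z * u z - v z) ((cg.sub cg').mul cu) ((cg'.mul cu).sub cv)
    (fun z => by ring)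
  have e2 : ∫ z, ‖(g z - g' z) * u z‖ ^ 2 ∂ν ≤ (min 1 (ε / 4)) ^ 2 * ∫ z, ‖u z‖ ^ 2 ∂ν :=
    int_mul_le ν (cg.sub cg') cu (le_min zero_le_one (by positivity)) hd
  have h3 := int_nonneg ν u
  have e4 : (min 1 (ε / 4)) ^ 2 ≤ ε / 4 := by
    have a1 := min_le_left 1 (ε / 4)
    have a2 := min_le_right 1 (ε / 4)
    have a3 : 0 ≤ min 1 (ε / 4) := le_min zero_le_one (by positivity)
    nlinarith
  have e5 := mul_le_mul_of_nonneg_right e4 h3
  linarith

/-- Functions of degree `m` which are good. -/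
def HomGood (ν : Measure X) [IsFiniteMeasure ν] (H : G → Submodule ℂ (X → ℂ)) (L : Filter G)
    (hH : ∀ k, ∀ u ∈ H k, Continuous u) {T : Type} (act : T → X → X) (χ : G → T → ℂ) (m : G) :
    Submodule ℂ C(X, ℂ) where
  carrier := {g | (∀ t z, g (act t z) = χ m t * g z) ∧ Good ν H L m g}
  add_mem' := by
    rintro a b ⟨h1, h2⟩ ⟨h3, h4⟩
    refine ⟨fun t z => ?_, ?_⟩
    · simp only [ContinuousMap.add_apply, h1, h3]
      ring
    · exact h2.add hH a.continuous b.continuous h4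
  zero_mem' := by
    refine ⟨fun t z => ?_, ?_⟩
    · simp
    · exact Good.zero m
  smul_mem' := by
    rintro c a ⟨h1, h2⟩
    refine ⟨fun t z => ?_, ?_⟩
    · simp only [ContinuousMap.smul_apply, smul_eq_mul, h1]
      ring
    · exact h2.smul c

/-- finite sums of good functions of some degrees form an algebra -/
theorem iSup_mul_mem (ν : Measure X) [IsFiniteMeasure ν] (H : G → Submodule ℂ (X → ℂ))
    (L : Filter G) (hH : ∀ k, ∀ u ∈ H k, Continuous u)
    (hL : ∀ m, Tendsto (fun k => k + m) L L) {T : Type} (act : T → X → X) (χ : G → T → ℂ)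
    (hχ : ∀ m n t, χ (m + n) t = χ m t * χ n t) (a b : C(X, ℂ))
    (ha : a ∈ ⨆ m, HomGood ν H L hH act χ m) (hb : b ∈ ⨆ m, HomGood ν H L hH act χ m) :
    a * b ∈ ⨆ m, HomGood ν H L hH act χ m := by
  refine Submodule.iSup_induction (fun m => HomGood ν H L hH act χ m)
    (motive := fun a => a * b ∈ ⨆ m, HomGood ν H L hH act χ m) ha (fun m x hx => ?_) ?_ ?_
  · refine Submodule.iSup_induction (fun m => HomGood ν H L hH act χ m)
      (motive := fun b => x * b ∈ ⨆ m, HomGood ν H L hH act χ m) hb (fun n y hy => ?_) ?_ ?_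
    · refine Submodule.mem_iSup_of_mem (m + n) ⟨fun t z => ?_, ?_⟩
      · simp only [ContinuousMap.mul_apply, hx.1 t z, hy.1 t z, hχ]
        ring
      · exact Good.mul hH hL x.continuous y.continuous hx.2 hy.2
    · simp
    · intro y z hy hz
      rw [mul_add]
      exact Submodule.add_mem _ hy hz
  · simp
  · intro y z hy hz
    rw [add_mul]
    exact Submodule.add_mem _ hy hz

/-- the main abstract statement -/
theorem good_of_hom (ν : Measure X) [IsFiniteMeasure ν] (H : G → Submodule ℂ (X → ℂ))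
    (L : Filter G) (hH : ∀ k, ∀ u ∈ H k, Continuous u)
    (hL : ∀ m, Tendsto (fun k => k + m) L L) {T : Type} (act : T → X → X) (χ : G → T → ℂ)
    (hχ : ∀ m n t, χ (m + n) t = χ m t * χ n t) (hχ0 : ∀ t, χ 0 t = 1)
    (hiso : ∀ (S : Finset G) (m : G), ∃ (ι : Type) (J : Finset ι) (w : ι → ℂ) (t : ι → T),
      ∑ j ∈ J, ‖w j‖ ≤ 1 ∧ ∀ n ∈ S, ∑ j ∈ J, w j * χ n (t j) = if n = m then 1 else 0)
    (gens : Set C(X, ℂ)) (hgens : ∀ f ∈ gens ∪ star gens, ∃ m, f ∈ HomGood ν H L hH act χ m)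
    (hsep : ∀ x y : X, x ≠ y → ∃ f ∈ gens, f x ≠ f y)
    (m : G) (g : X → ℂ) (cg : Continuous g) (hg : ∀ t z, g (act t z) = χ m t * g z) :
    Good ν H L m g := by
  have hadj : ∀ f ∈ StarAlgebra.adjoin ℂ gens, f ∈ ⨆ m, HomGood ν H L hH act χ m := by
    intro f hf
    have hf' : f ∈ Algebra.adjoin ℂ (gens ∪ star gens) := by
      rw [← StarAlgebra.adjoin_toSubalgebra]
      exact hf
    refine Algebra.adjoin_induction (p := fun f _ => f ∈ ⨆ m, HomGood ν H L hH act χ m)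
      (fun x hx => ?_) (fun r => ?_) (fun x y _ _ hx hy => Submodule.add_mem _ hx hy)
      (fun x y _ _ hx hy => iSup_mul_mem ν H L hH hL act χ hχ x y hx hy) hf'
    · obtain ⟨m, hm⟩ := hgens x hx
      exact Submodule.mem_iSup_of_mem m hm
    · refine Submodule.mem_iSup_of_mem 0 ⟨fun t z => ?_, ?_⟩
      · simp [hχ0]
      · have h1 := (Good.one (ν := ν) (H := H) (L := L)).smul r
        have h2 : ((algebraMap ℂ C(X, ℂ) r : C(X, ℂ)) : X → ℂ) = fun _ => r * 1 := by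
          funext z
          simp
        rw [h2]
        exact h1
  have htop : (StarAlgebra.adjoin ℂ gens).topologicalClosure = ⊤ := by
    apply ContinuousMap.starSubalgebra_topologicalClosure_eq_top_of_separatesPoints
    intro x y hxy
    obtain ⟨f, hf, hne⟩ := hsep x y hxy
    exact ⟨f, ⟨f, StarAlgebra.subset_adjoin ℂ gens hf, rfl⟩, hne⟩
  refine good_of_approx hH cg fun δ hδ => ?_
  have hmem : (⟨g, cg⟩ : C(X, ℂ)) ∈ closure ((StarAlgebra.adjoin ℂ gens : StarSubalgebra ℂ C(X, ℂ)) :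
      Set C(X, ℂ)) := by
    have : (⟨g, cg⟩ : C(X, ℂ)) ∈ (StarAlgebra.adjoin ℂ gens).topologicalClosure := by
      rw [htop]; trivial
    exact this
  obtain ⟨f, hf, hfd⟩ := Metric.mem_closure_iff.1 hmem δ hδ
  obtain ⟨c, hc, hcf⟩ := (Submodule.mem_iSup_iff_exists_finsupp _ _).1 (hadj f hf)
  obtain ⟨ι, J, w, t, hw, hwt⟩ := hiso (insert m c.support) m
  have hcz : ∀ z, f z = ∑ n ∈ c.support, c n z := by
    intro z
    rw [← hcf, Finsupp.sum, ContinuousMap.sum_apply]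
  have havg : ∀ z, c m z = ∑ j ∈ J, w j * f (act (t j) z) := by
    intro z
    have h1 : ∀ j ∈ J, w j * f (act (t j) z) = ∑ n ∈ c.support, w j * χ n (t j) * c n z := by
      intro j _
      rw [hcz, Finset.mul_sum]
      refine Finset.sum_congr rfl fun n _ => ?_
      rw [(hc n).1]
      ring
    rw [Finset.sum_congr rfl h1, Finset.sum_comm]
    have h2 : ∀ n ∈ c.support, ∑ j ∈ J, w j * χ n (t j) * c n z = if n = m then c n z else 0 := by
      intro n hn
      rw [← Finset.sum_mul, hwt n (Finset.mem_insert_of_mem hn)]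
      split_ifs <;> simp
    rw [Finset.sum_congr rfl h2]
    rw [Finset.sum_ite_eq' c.support m (fun n => c n z)]
    split_ifs with hm
    · rfl
    · rw [Finsupp.notMem_support_iff.1 hm]
      simp
  have havg2 : ∀ z, g z = ∑ j ∈ J, w j * g (act (t j) z) := by
    intro z
    have h1 := hwt m (Finset.mem_insert_self _ _)
    rw [if_pos rfl] at h1
    calc g z = (∑ j ∈ J, w j * χ m (t j)) * g z := by rw [h1, one_mul]
      _ = _ := by
        rw [Finset.sum_mul]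
        refine Finset.sum_congr rfl fun j _ => ?_
        rw [hg]
        ring
  refine ⟨c m, (c m).continuous, (hc m).2, fun z => ?_⟩
  rw [havg2 z, havg z, ← Finset.sum_sub_distrib]
  calc ‖∑ j ∈ J, (w j * g (act (t j) z) - w j * f (act (t j) z))‖
      ≤ ∑ j ∈ J, ‖w j * g (act (t j) z) - w j * f (act (t j) z)‖ := norm_sum_le _ _
    _ ≤ ∑ j ∈ J, ‖w j‖ * δ := by
        refine Finset.sum_le_sum fun j _ => ?_
        rw [← mul_sub, norm_mul]
        gcongr
        have h1 := ContinuousMap.dist_apply_le_dist (f := (⟨g, cg⟩ : C(X, ℂ))) (g := f)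
          (act (t j) z)
        rw [dist_eq_norm] at h1
        exact h1.trans hfd.le
    _ = (∑ j ∈ J, ‖w j‖) * δ := by rw [Finset.sum_mul]
    _ ≤ 1 * δ := by gcongr
    _ = δ := one_mul _

/-- the norm of a sum of orthogonal functions -/
theorem int_sum_orth (ν : Measure X) [IsFiniteMeasure ν] {σ : Type} (S : Finset σ)
    (φ : σ → X → ℂ) (hc : ∀ s, Continuous (φ s))
    (horth : ∀ s ∈ S, ∀ t ∈ S, s ≠ t → ∫ z, φ s z * (starRingEnd ℂ) (φ t z) ∂ν = 0) (c : σ → ℂ) :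
    ∫ z, ‖∑ s ∈ S, c s * φ s z‖ ^ 2 ∂ν = ∑ s ∈ S, ‖c s‖ ^ 2 * ∫ z, ‖φ s z‖ ^ 2 ∂ν := by
  classical
  have key : ((∫ z, ‖∑ s ∈ S, c s * φ s z‖ ^ 2 ∂ν : ℝ) : ℂ) =
      ((∑ s ∈ S, ‖c s‖ ^ 2 * ∫ z, ‖φ s z‖ ^ 2 ∂ν : ℝ) : ℂ) := by
    rw [← integral_complex_ofReal]
    have h1 : ∀ z, (((‖∑ s ∈ S, c s * φ s z‖ ^ 2 : ℝ)) : ℂ) =
        ∑ s ∈ S, ∑ t ∈ S, (c s * (starRingEnd ℂ) (c t)) * (φ s z * (starRingEnd ℂ) (φ t z)) := by
      intro z
      rw [Complex.ofReal_pow, ← Complex.mul_conj', map_sum, Finset.sum_mul_sum]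
      refine Finset.sum_congr rfl fun s _ => Finset.sum_congr rfl fun t _ => ?_
      rw [map_mul]
      ring
    simp_rw [h1]
    have hint : ∀ s t, Integrable (fun z => (c s * (starRingEnd ℂ) (c t)) *
        (φ s z * (starRingEnd ℂ) (φ t z))) ν := by
      intro s t
      exact integrable_of_cont ν (continuous_const.mul ((hc s).mul
        (Complex.continuous_conj.comp (hc t))))
    rw [integral_finsetSum _ (fun s _ => integrable_finsetSum _ fun t _ => hint s t)]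
    rw [Complex.ofReal_sum]
    refine Finset.sum_congr rfl fun s hs => ?_
    rw [integral_finsetSum _ (fun t _ => hint s t)]
    rw [Finset.sum_eq_single s]
    · rw [integral_const_mul, Complex.mul_conj']
      have h2 : ∀ z, φ s z * (starRingEnd ℂ) (φ s z) = ((‖φ s z‖ ^ 2 : ℝ) : ℂ) := by
        intro z
        rw [Complex.mul_conj', Complex.ofReal_pow]
      simp_rw [h2]
      rw [integral_complex_ofReal]
      push_cast
      ring
    · intro t ht hts
      rw [integral_const_mul, horth s hs t ht (Ne.symm hts), mul_zero]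
    · intro h
      exact absurd hs h
  exact_mod_cast key

/-- multipliers which are almost diagonal with respect to an orthogonal family -/
theorem good_of_orth (ν : Measure X) [IsFiniteMeasure ν] (H : G → Submodule ℂ (X → ℂ))
    (L : Filter G) {σ : Type} (φ : σ → X → ℂ) (hφc : ∀ s, Continuous (φ s))
    (deg : σ → G) (hHs : ∀ k, H k = Submodule.span ℂ (φ '' {s | deg s = k}))
    (hφ : ∀ s t, s ≠ t → ∫ z, φ s z * (starRingEnd ℂ) (φ t z) ∂ν = 0)
    (m : G) (g : X → ℂ) (hg : Continuous g) (ψ : σ → X → ℂ) (hψc : ∀ s, Continuous (ψ s))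
    (hψ : ∀ s, ψ s ∈ H (deg s + m))
    (hd : ∀ s t, deg s = deg t → s ≠ t →
      ∫ z, (g z * φ s z - ψ s z) * (starRingEnd ℂ) (g z * φ t z - ψ t z) ∂ν = 0)
    (hb : ∀ ε : ℝ, 0 < ε → ∀ᶠ k in L, ∀ s, deg s = k →
      ∫ z, ‖g z * φ s z - ψ s z‖ ^ 2 ∂ν ≤ ε * ∫ z, ‖φ s z‖ ^ 2 ∂ν) :
    Good ν H L m g := by
  intro ε hε
  filter_upwards [hb ε hε] with k hk u hu
  rw [hHs k, Finsupp.mem_span_image_iff_linearCombination] at hu
  obtain ⟨c, hc, rfl⟩ := hu
  have hdeg : ∀ s ∈ c.support, deg s = k := by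
    intro s hs
    exact (Finsupp.mem_supported ℂ c).1 hc hs
  refine ⟨∑ s ∈ c.support, c s • ψ s, Submodule.sum_mem _ fun s hs => ?_, ?_⟩
  · have := hψ s
    rw [hdeg s hs] at this
    exact Submodule.smul_mem _ _ this
  · have h1 : ∀ z, g z * (Finsupp.linearCombination ℂ φ c) z - (∑ s ∈ c.support, c s • ψ s) z =
        ∑ s ∈ c.support, c s * (g z * φ s z - ψ s z) := by
      intro z
      rw [Finsupp.linearCombination_apply, Finsupp.sum, Finset.sum_apply, Finset.sum_apply,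
        Finset.mul_sum, ← Finset.sum_sub_distrib]
      refine Finset.sum_congr rfl fun s _ => ?_
      simp only [Pi.smul_apply, smul_eq_mul]
      ring
    have h2 : ∀ z, (Finsupp.linearCombination ℂ φ c) z = ∑ s ∈ c.support, c s * φ s z := by
      intro z
      rw [Finsupp.linearCombination_apply, Finsupp.sum, Finset.sum_apply]
      rfl
    simp_rw [h1, h2]
    rw [int_sum_orth ν c.support (fun s z => g z * φ s z - ψ s z)
      (fun s => (hg.mul (hφc s)).sub (hψc s))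
      (fun s hs t ht hst => hd s t ((hdeg s hs).trans (hdeg t ht).symm) hst) c]
    rw [int_sum_orth ν c.support φ hφc (fun s _ t _ hst => hφ s t hst) c, Finset.mul_sum]
    refine Finset.sum_le_sum fun s hs => ?_
    have h3 := hk s (hdeg s hs)
    calc ‖c s‖ ^ 2 * ∫ z, ‖g z * φ s z - ψ s z‖ ^ 2 ∂ν
        ≤ ‖c s‖ ^ 2 * (ε * ∫ z, ‖φ s z‖ ^ 2 ∂ν) := by gcongr
      _ = ε * (‖c s‖ ^ 2 * ∫ z, ‖φ s z‖ ^ 2 ∂ν) := by ring

end Abstract

/-! ### isolation of a degree by averaging over roots of unity -/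

theorem iso_circle (S : Finset ℤ) (m : ℤ) :
    ∃ (ι : Type) (J : Finset ι) (w : ι → ℂ) (t : ι → Circle),
      ∑ j ∈ J, ‖w j‖ ≤ 1 ∧ ∀ n ∈ S, ∑ j ∈ J, w j * ((t j : Circle) : ℂ) ^ n =
        if n = m then 1 else 0 := by
  set N : ℕ := 1 + ∑ n ∈ S, (n - m).natAbs with hN
  have hN0 : N ≠ 0 := by omega
  have hNR : (N : ℂ) ≠ 0 := by exact_mod_cast hN0
  have hprim : IsPrimitiveRoot ((Circle.exp (2 * Real.pi / N) : Circle) : ℂ) N := by
    have h := Complex.isPrimitiveRoot_exp N hN0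
    have h2 : ((Circle.exp (2 * Real.pi / N) : Circle) : ℂ) =
        Complex.exp (2 * Real.pi * Complex.I / N) := by
      rw [Circle.coe_exp]
      congr 1
      push_cast
      ring
    rw [h2]
    exact h
  set ζ : Circle := Circle.exp (2 * Real.pi / N) with hζ
  refine ⟨ℕ, Finset.range N, fun j => ((ζ : ℂ) ^ (-m * (j : ℤ))) / N, fun j => ζ ^ j, ?_, ?_⟩
  · have h1 : ∀ j ∈ Finset.range N, ‖((ζ : ℂ) ^ (-m * (j : ℤ))) / (N : ℂ)‖ = 1 / N := by
      intro j _
      rw [norm_div, norm_zpow, Circle.norm_coe, one_zpow, Complex.norm_natCast]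
    rw [Finset.sum_congr rfl h1, Finset.sum_const, Finset.card_range, nsmul_eq_mul]
    rw [mul_one_div, div_self]
    exact_mod_cast hN0
  · intro n hn
    have hz0 : (ζ : ℂ) ≠ 0 := Circle.coe_ne_zero ζ
    have h1 : ∀ j ∈ Finset.range N, ((ζ : ℂ) ^ (-m * (j : ℤ))) / (N : ℂ) *
        (((ζ ^ j : Circle)) : ℂ) ^ n = (1 / N) * ((ζ : ℂ) ^ (n - m)) ^ j := by
      intro j _
      rw [Circle.coe_pow, ← zpow_natCast (ζ : ℂ) j, ← zpow_mul, ← zpow_natCast _ j, ← zpow_mul,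
        div_mul_eq_mul_div, ← zpow_add₀ hz0, div_eq_mul_one_div, mul_comm]
      congr 2
      ring
    rw [Finset.sum_congr rfl h1, ← Finset.mul_sum]
    split_ifs with hnm
    · subst hnm
      simp [hNR]
    · have hx : (ζ : ℂ) ^ (n - m) ≠ 1 := by
        intro h
        rw [hprim.zpow_eq_one_iff_dvd] at h
        have h3 : n - m ≠ 0 := sub_ne_zero.2 hnm
        have h4 := Int.le_of_dvd (by positivity : (0 : ℤ) < |n - m|) ((dvd_abs _ _).2 h)
        have h5 : (n - m).natAbs ≤ ∑ n ∈ S, (n - m).natAbs :=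
          Finset.single_le_sum (f := fun n => (n - m).natAbs) (fun _ _ => Nat.zero_le _) hn
        have h6 : |n - m| = ((n - m).natAbs : ℤ) := Int.abs_eq_natAbs _
        omega
      have hxN : ((ζ : ℂ) ^ (n - m)) ^ N = 1 := by
        rw [← zpow_natCast, ← zpow_mul, mul_comm, zpow_mul, zpow_natCast, hprim.pow_eq_one,
          one_zpow]
      rw [geom_sum_eq hx, hxN]
      simp

theorem iso_torus (S : Finset (ℤ × ℤ)) (m : ℤ × ℤ) :
    ∃ (ι : Type) (J : Finset ι) (w : ι → ℂ) (t : ι → Circle × Circle),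
      ∑ j ∈ J, ‖w j‖ ≤ 1 ∧ ∀ n ∈ S, ∑ j ∈ J, w j *
        ((((t j).1 : Circle) : ℂ) ^ n.1 * (((t j).2 : Circle) : ℂ) ^ n.2) =
        if n = m then 1 else 0 := by
  classical
  obtain ⟨ι1, J1, w1, t1, h1, h1'⟩ := iso_circle (S.image Prod.fst) m.1
  obtain ⟨ι2, J2, w2, t2, h2, h2'⟩ := iso_circle (S.image Prod.snd) m.2
  refine ⟨ι1 × ι2, J1 ×ˢ J2, fun j => w1 j.1 * w2 j.2, fun j => (t1 j.1, t2 j.2), ?_, ?_⟩
  · have e0 : ∑ j ∈ J1 ×ˢ J2, ‖w1 j.1 * w2 j.2‖ = (∑ j ∈ J1, ‖w1 j‖) * (∑ j ∈ J2, ‖w2 j‖) := by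
      rw [Finset.sum_mul_sum, Finset.sum_product]
      refine Finset.sum_congr rfl fun i _ => Finset.sum_congr rfl fun j _ => norm_mul _ _
    rw [e0]
    exact mul_le_one₀ h1 (Finset.sum_nonneg fun _ _ => norm_nonneg _) h2
  · intro n hn
    have e1 := h1' n.1 (Finset.mem_image_of_mem _ hn)
    have e2 := h2' n.2 (Finset.mem_image_of_mem _ hn)
    have e3 : ∑ j ∈ J1 ×ˢ J2, w1 j.1 * w2 j.2 * (((t1 j.1 : Circle) : ℂ) ^ n.1 *
        ((t2 j.2 : Circle) : ℂ) ^ n.2) = (∑ j ∈ J1, w1 j * ((t1 j : Circle) : ℂ) ^ n.1) *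
        (∑ j ∈ J2, w2 j * ((t2 j : Circle) : ℂ) ^ n.2) := by
      rw [Finset.sum_mul_sum, Finset.sum_product]
      refine Finset.sum_congr rfl fun i _ => Finset.sum_congr rfl fun j _ => ?_
      ring
    rw [e3, e1, e2]
    by_cases ha : n.1 = m.1 <;> by_cases hb : n.2 = m.2
    · have : n = m := Prod.ext ha hb
      simp [this]
    · have : n ≠ m := fun h => hb (by rw [h])
      simp [hb, this]
    · have : n ≠ m := fun h => ha (by rw [h])
      simp [ha, this]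
    · have : n ≠ m := fun h => ha (by rw [h])
      simp [ha, this]

end Pool.Agent.TH225.SDK2
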