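import Pool.Agent.TH179.SD.Kth
import Pool.Agent.TH225.SD.K2a

/-!
# Asymptotic multiplicativity on the sphere
-/

set_option autoImplicit false

open scoped Topology Pointwise
open Set MeasureTheory Filter

noncomputable section

namespace Pool.Agent.TH225.SDK2
open Pool.Agent.TH179.SD

instance compactZ : CompactSpace Z := by
  have h : IsCompact {z : C5 | ∑ i, ‖z i‖ ^ 2 = 1} := ?_
  · exact isCompact_iff_compactSpace.1 h
  apply Metric.isCompact_of_isClosed_isBounded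
  · exact isClosed_eq (continuous_finsetSum _ fun i _ => ((continuous_apply i).norm.pow 2))
      continuous_const
  · refine (Metric.isBounded_closedBall (x := (0 : C5)) (r := 1)).subset ?_
    intro z hz
    rw [mem_closedBall_zero_iff, pi_norm_le_iff_of_nonneg zero_le_one]
    intro i
    have h1 : ‖z i‖ ^ 2 ≤ ∑ j, ‖z j‖ ^ 2 :=
      Finset.single_le_sum (f := fun j => ‖z j‖ ^ 2) (fun _ _ => by positivity) (Finset.mem_univ i)
    have h2 : ∑ j, ‖z j‖ ^ 2 = 1 := hz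
    rw [h2] at h1
    have h3 := norm_nonneg (z i)
    nlinarith

theorem norm_coord_le (z : Z) (i : Fin 5) : ‖z.1 i‖ ≤ 1 := by
  have h1 : ‖z.1 i‖ ^ 2 ≤ ∑ j, ‖z.1 j‖ ^ 2 :=
    Finset.single_le_sum (f := fun j => ‖z.1 j‖ ^ 2) (fun _ _ => by positivity) (Finset.mem_univ i)
  rw [z.2] at h1
  have h3 := norm_nonneg (z.1 i)
  nlinarith

theorem cont_coord (i : Fin 5) : Continuous (fun z : Z => z.1 i) :=
  (continuous_apply i).comp continuous_subtype_val

theorem cont_mono (α : Fin 5 → ℕ) : Continuous (mono α) :=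
  continuous_finsetProd _ fun i _ => (cont_coord i).pow _

/-- the unit vector -/
abbrev eu (i : Fin 5) : Fin 5 → ℕ := Pi.single i 1

theorem mono_eu (i : Fin 5) (z : Z) : mono (eu i) z = z.1 i := by
  unfold mono
  rw [Finset.prod_eq_single i]
  · simp
  · intro j _ hj
    simp [Pi.single_eq_of_ne hj]
  · simp

theorem mono_add (α β : Fin 5 → ℕ) (z : Z) : mono (α + β) z = mono α z * mono β z := by
  unfold mono
  rw [← Finset.prod_mul_distrib]
  exact Finset.prod_congr rfl fun i _ => by rw [Pi.add_apply, pow_add]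

theorem mono_up (α : Fin 5 → ℕ) (i : Fin 5) (z : Z) : mono (α + eu i) z = z.1 i * mono α z := by
  rw [mono_add, mono_eu, mul_comm]

theorem sum_up (α : Fin 5 → ℕ) (i : Fin 5) : ∑ j, (α + eu i) j = ∑ j, α j + 1 := by
  simp only [Pi.add_apply, Finset.sum_add_distrib]
  rw [Finset.sum_eq_single (s := Finset.univ) (f := eu i) i]
  · simp
  · intro j _ hj
    simp [Pi.single_eq_of_ne hj]
  · simp

theorem down_up (α : Fin 5 → ℕ) (i : Fin 5) (h : 1 ≤ α i) : α - eu i + eu i = α := by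
  refine tsub_add_cancel_of_le ?_
  intro j
  by_cases hj : j = i
  · subst hj; simpa using h
  · simp [Pi.single_eq_of_ne hj]

/-- the moment -/
def cm (α : Fin 5 → ℕ) : ℝ := ((∏ i, ((α i).factorial : ℝ)) * 24) / (((∑ i, α i) + 4).factorial : ℝ)

theorem cm_pos (α : Fin 5 → ℕ) : 0 < cm α := by
  unfold cm
  have : ∀ i, 0 < ((α i).factorial : ℝ) := fun i => by exact_mod_cast Nat.factorial_pos _
  have h2 : (0 : ℝ) < ∏ i, ((α i).factorial : ℝ) := Finset.prod_pos fun i _ => this i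
  positivity

theorem cm_up (α : Fin 5 → ℕ) (i : Fin 5) :
    cm (α + eu i) = cm α * ((α i : ℝ) + 1) / (((∑ j, α j : ℕ) : ℝ) + 5) := by
  unfold cm
  rw [sum_up]
  have h1 : ∏ j, (((α + eu i) j).factorial : ℝ) = (∏ j, ((α j).factorial : ℝ)) * ((α i : ℝ) + 1) := by
    rw [← Finset.mul_prod_erase Finset.univ (fun j => (((α + eu i) j).factorial : ℝ))
      (Finset.mem_univ i), ← Finset.mul_prod_erase Finset.univ (fun j => ((α j).factorial : ℝ))
      (Finset.mem_univ i)]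
    have h2 : ∏ j ∈ Finset.univ.erase i, (((α + eu i) j).factorial : ℝ) =
        ∏ j ∈ Finset.univ.erase i, ((α j).factorial : ℝ) := by
      refine Finset.prod_congr rfl fun j hj => ?_
      have : j ≠ i := Finset.ne_of_mem_erase hj
      simp [Pi.single_eq_of_ne this]
    rw [h2]
    have h3 : (α + eu i) i = α i + 1 := by simp
    rw [h3, Nat.factorial_succ]
    push_cast
    ring
  rw [h1]
  have h4 : ((∑ j, α j + 1 + 4).factorial : ℝ) = ((∑ j, α j + 4).factorial : ℝ) *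
      (((∑ j, α j : ℕ) : ℝ) + 5) := by
    rw [show ∑ j, α j + 1 + 4 = (∑ j, α j + 4) + 1 by ring, Nat.factorial_succ]
    push_cast
    ring
  rw [h4]
  have h5 : ((∑ j, α j + 4).factorial : ℝ) ≠ 0 := by exact_mod_cast Nat.factorial_ne_zero _
  have h6 : (((∑ j, α j : ℕ) : ℝ) + 5) ≠ 0 := by positivity
  field_simp

theorem cm_down (α : Fin 5 → ℕ) (i : Fin 5) (h : 1 ≤ α i) :
    cm (α - eu i) * (α i : ℝ) = cm α * (((∑ j, α j : ℕ) : ℝ) + 4) := by
  have h1 := cm_up (α - eu i) i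
  have h2 := sum_up (α - eu i) i
  rw [down_up α i h] at h1 h2
  have h3 : ((α - eu i) i : ℕ) = α i - 1 := by simp
  rw [h3] at h1
  have h4 : (((α i - 1 : ℕ) : ℝ)) + 1 = α i := by
    rw [Nat.cast_sub h]; simp
  rw [h4] at h1
  have h5 : (((∑ j, α j : ℕ) : ℝ)) = ((∑ j, (α - eu i) j : ℕ) : ℝ) + 1 := by
    rw [h2]; push_cast; ring
  rw [h1, h5]
  have h6 : (((∑ j, (α - eu i) j : ℕ) : ℝ) + 5) ≠ 0 := by positivity
  field_simp
  ring

variable {μ : Measure Z}

theorem mom_eq (hμ : Mom μ) (α β : Fin 5 → ℕ) :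
    ∫ z, mono α z * (starRingEnd ℂ) (mono β z) ∂μ = if α = β then (cm α : ℂ) else 0 := by
  rw [hμ.mom α β]
  split_ifs
  · unfold cm
    push_cast
    rfl
  · rfl

theorem mom_self (hμ : Mom μ) (α : Fin 5 → ℕ) : ∫ z, ‖mono α z‖ ^ 2 ∂μ = cm α := by
  have h := mom_eq hμ α α
  rw [if_pos rfl] at h
  have h2 : ∀ z, mono α z * (starRingEnd ℂ) (mono α z) = ((‖mono α z‖ ^ 2 : ℝ) : ℂ) := by
    intro z
    rw [Complex.mul_conj', Complex.ofReal_pow]
  simp_rw [h2] at h
  rw [integral_complex_ofReal] at h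
  exact_mod_cast h

/-- the approximation to `conj z_i z^α` -/
def psi (i : Fin 5) (α : Fin 5 → ℕ) (z : Z) : ℂ :=
  ((α i : ℂ) / (((∑ j, α j : ℕ) : ℂ) + 4)) * mono (α - eu i) z

theorem cont_psi (i : Fin 5) (α : Fin 5 → ℕ) : Continuous (psi i α) :=
  continuous_const.mul (cont_mono _)

theorem psi_key (i : Fin 5) (α : Fin 5 → ℕ) (z : Z) :
    psi i α z * z.1 i = ((α i : ℂ) / (((∑ j, α j : ℕ) : ℂ) + 4)) * mono α z := by
  unfold psi
  rcases Nat.eq_zero_or_pos (α i) with h | h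
  · simp [h]
  · rw [mul_assoc, mul_comm (mono _ z), ← mono_up, down_up α i h]

/-- Inner products of the errors. -/
theorem inner_err (hμ : Mom μ) (i : Fin 5) (α β : Fin 5 → ℕ) (hk : ∑ j, α j = ∑ j, β j) :
    ∫ z, ((starRingEnd ℂ) (z.1 i) * mono α z - psi i α z) *
      (starRingEnd ℂ) ((starRingEnd ℂ) (z.1 i) * mono β z - psi i β z) ∂μ =
    if α = β then ((cm α * (((α i : ℝ) + 1) / (((∑ j, α j : ℕ) : ℝ) + 5) -
      (α i : ℝ) / (((∑ j, α j : ℕ) : ℝ) + 4)) : ℝ) : ℂ) else 0 := by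
  have := hμ.prob
  set K : ℂ := ((∑ j, α j : ℕ) : ℂ) + 4 with hK
  have hK' : ((∑ j, β j : ℕ) : ℂ) + 4 = K := by rw [hK, hk]
  have hK0 : K ≠ 0 := by
    rw [hK]
    have : ((∑ j, α j : ℕ) : ℂ) + 4 = ((∑ j, α j + 4 : ℕ) : ℂ) := by push_cast; ring
    rw [this]
    exact_mod_cast (by omega : ∑ j, α j + 4 ≠ 0)
  have hKc : (starRingEnd ℂ) K = K := by
    rw [hK, map_add, Complex.conj_natCast, Complex.conj_ofNat]
  have hpt : ∀ z : Z, ((starRingEnd ℂ) (z.1 i) * mono α z - psi i α z) *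
      (starRingEnd ℂ) ((starRingEnd ℂ) (z.1 i) * mono β z - psi i β z) =
      mono (α + eu i) z * (starRingEnd ℂ) (mono (β + eu i) z) -
      ((β i : ℂ) / K + (α i : ℂ) / K) * (mono α z * (starRingEnd ℂ) (mono β z)) +
      ((α i : ℂ) / K * ((β i : ℂ) / K)) * (mono (α - eu i) z *
        (starRingEnd ℂ) (mono (β - eu i) z)) := by
    intro z
    have e1 := psi_key i α z
    have e2 := congrArg (starRingEnd ℂ) (psi_key i β z)
    rw [← hK] at e1
    rw [hK', map_mul, map_mul, map_div₀, hKc, Complex.conj_natCast] at e2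
    have e3 : (starRingEnd ℂ) (psi i β z) = (β i : ℂ) / K * (starRingEnd ℂ) (mono (β - eu i) z) := by
      unfold psi
      rw [hK', map_mul, map_div₀, Complex.conj_natCast, hKc]
    have e4 : psi i α z = (α i : ℂ) / K * mono (α - eu i) z := rfl
    rw [mono_up, mono_up, map_sub, map_mul, map_mul, Complex.conj_conj]
    have e5 : (starRingEnd ℂ) (z.1 i) * (starRingEnd ℂ) (psi i β z) =
        (β i : ℂ) / K * (starRingEnd ℂ) (mono β z) := by rw [mul_comm]; exact e2
    calc ((starRingEnd ℂ) (z.1 i) * mono α z - psi i α z) *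
        (z.1 i * (starRingEnd ℂ) (mono β z) - (starRingEnd ℂ) (psi i β z))
        = z.1 i * mono α z * ((starRingEnd ℂ) (z.1 i) * (starRingEnd ℂ) (mono β z))
          - mono α z * ((starRingEnd ℂ) (z.1 i) * (starRingEnd ℂ) (psi i β z))
          - (psi i α z * z.1 i) * (starRingEnd ℂ) (mono β z)
          + psi i α z * (starRingEnd ℂ) (psi i β z) := by ring
      _ = _ := by
        rw [e5, e1, e3, e4]
        ring
  simp_rw [hpt]
  have I1 : ∀ α β : Fin 5 → ℕ, Integrable (fun z => mono α z * (starRingEnd ℂ) (mono β z)) μ :=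
    fun α β => integrable_of_cont μ ((cont_mono α).mul (Complex.continuous_conj.comp (cont_mono β)))
  have J2 : Integrable (fun z => ((β i : ℂ) / K + (α i : ℂ) / K) *
      (mono α z * (starRingEnd ℂ) (mono β z))) μ := (I1 α β).const_mul _
  have J3 : Integrable (fun z => ((α i : ℂ) / K * ((β i : ℂ) / K)) * (mono (α - eu i) z *
        (starRingEnd ℂ) (mono (β - eu i) z))) μ := (I1 _ _).const_mul _
  have J1 : Integrable (fun z => mono (α + eu i) z * (starRingEnd ℂ) (mono (β + eu i) z) -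
      ((β i : ℂ) / K + (α i : ℂ) / K) * (mono α z * (starRingEnd ℂ) (mono β z))) μ :=
    (I1 _ _).sub J2
  rw [integral_add J1 J3, integral_sub (I1 _ _) J2, integral_const_mul, integral_const_mul,
    mom_eq hμ, mom_eq hμ, mom_eq hμ]
  by_cases hab : α = β
  · subst hab
    rw [if_pos rfl, if_pos rfl, if_pos rfl, if_pos rfl, cm_up]
    rcases Nat.eq_zero_or_pos (α i) with h | h
    · simp [h]
      ring
    · have h1 := cm_down α i h
      have h2 : (cm (α - eu i) : ℂ) = (cm α : ℂ) * K / (α i : ℂ) := by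
        have h3 : (α i : ℂ) ≠ 0 := by exact_mod_cast h.ne'
        rw [eq_div_iff h3, hK]
        exact_mod_cast h1
      have h3 : (α i : ℂ) ≠ 0 := by exact_mod_cast h.ne'
      rw [h2]
      have h5 : ((∑ j, α j : ℕ) : ℂ) + 5 ≠ 0 := by
        have : ((∑ j, α j : ℕ) : ℂ) + 5 = ((∑ j, α j + 5 : ℕ) : ℂ) := by push_cast; ring
        rw [this]
        exact_mod_cast (by omega : ∑ j, α j + 5 ≠ 0)
      push_cast
      push_cast at hK h5
      rw [← hK]
      field_simp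
      ring
  · have h1 : α + eu i ≠ β + eu i := fun h => hab (add_right_cancel h)
    rw [if_neg hab, if_neg hab, if_neg h1]
    by_cases h2 : α - eu i = β - eu i
    · rcases Nat.eq_zero_or_pos (α i) with h | h
      · simp [h]
      · rcases Nat.eq_zero_or_pos (β i) with h' | h'
        · simp [h']
        · exfalso
          apply hab
          rw [← down_up α i h, ← down_up β i h', h2]
    · rw [if_neg h2]
      simp

/-- the error function -/
def er (i : Fin 5) (α : Fin 5 → ℕ) (z : Z) : ℂ := (starRingEnd ℂ) (z.1 i) * mono α z - psi i α z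

theorem cont_er (i : Fin 5) (α : Fin 5 → ℕ) : Continuous (er i α) :=
  ((Complex.continuous_conj.comp (cont_coord i)).mul (cont_mono α)).sub (cont_psi i α)

theorem er_orth (hμ : Mom μ) (i : Fin 5) (α β : Fin 5 → ℕ) (hk : ∑ j, α j = ∑ j, β j)
    (h : α ≠ β) : ∫ z, er i α z * (starRingEnd ℂ) (er i β z) ∂μ = 0 := by
  have := inner_err hμ i α β hk
  rw [if_neg h] at this
  exact this

theorem er_sq (hμ : Mom μ) (i : Fin 5) (α : Fin 5 → ℕ) :
    ∫ z, ‖er i α z‖ ^ 2 ∂μ ≤ 1 / (((∑ j, α j : ℕ) : ℝ) + 5) * ∫ z, ‖mono α z‖ ^ 2 ∂μ := by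
  have h := inner_err hμ i α α rfl
  rw [if_pos rfl] at h
  have h2 : ∀ z, ((starRingEnd ℂ) (z.1 i) * mono α z - psi i α z) *
      (starRingEnd ℂ) ((starRingEnd ℂ) (z.1 i) * mono α z - psi i α z) =
      ((‖er i α z‖ ^ 2 : ℝ) : ℂ) := by
    intro z
    rw [Complex.mul_conj', Complex.ofReal_pow]
    rfl
  simp_rw [h2] at h
  rw [integral_complex_ofReal] at h
  have h3 : ∫ z, ‖er i α z‖ ^ 2 ∂μ = cm α * (((α i : ℝ) + 1) / (((∑ j, α j : ℕ) : ℝ) + 5) -
      (α i : ℝ) / (((∑ j, α j : ℕ) : ℝ) + 4)) := by exact_mod_cast h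
  rw [h3, mom_self hμ, mul_comm (1 / _)]
  refine mul_le_mul_of_nonneg_left ?_ (cm_pos α).le
  have hs : (0 : ℝ) ≤ ((∑ j, α j : ℕ) : ℝ) := Nat.cast_nonneg _
  have ha : (0 : ℝ) ≤ (α i : ℝ) := Nat.cast_nonneg _
  have h4 : (α i : ℝ) / (((∑ j, α j : ℕ) : ℝ) + 5) ≤ (α i : ℝ) / (((∑ j, α j : ℕ) : ℝ) + 4) := by
    gcongr
    norm_num
  rw [add_div]
  linarith

/-! ### one variable -/

theorem poly1_eq (k : ℤ) :
    poly1 k = Submodule.span ℂ (mono '' {α | ((∑ i, α i : ℕ) : ℤ) = k}) := by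
  unfold poly1
  congr 1
  ext u
  constructor
  · rintro ⟨α, h, rfl⟩
    exact ⟨α, h, rfl⟩
  · rintro ⟨α, h, rfl⟩
    exact ⟨α, h, rfl⟩

theorem mono_mem (α : Fin 5 → ℕ) : mono α ∈ poly1 ((∑ i, α i : ℕ) : ℤ) :=
  Submodule.subset_span ⟨α, rfl, rfl⟩

theorem poly1_cont (k : ℤ) (u : Z → ℂ) (hu : u ∈ poly1 k) : Continuous u := by
  refine Submodule.span_induction (p := fun u _ => Continuous u) ?_ ?_ ?_ ?_ hu
  · rintro x ⟨α, _, rfl⟩
    exact cont_mono α
  · exact continuous_const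
  · intro x y _ _ hx hy
    exact hx.add hy
  · intro a x _ hx
    exact continuous_const.mul hx

theorem up_mem (i : Fin 5) (α : Fin 5 → ℕ) :
    mono (α + eu i) ∈ poly1 (((∑ j, α j : ℕ) : ℤ) + 1) := by
  have := mono_mem (α + eu i)
  rw [sum_up] at this
  push_cast at this ⊢
  exact this

theorem psi_mem (i : Fin 5) (α : Fin 5 → ℕ) :
    psi i α ∈ poly1 (((∑ j, α j : ℕ) : ℤ) + -1) := by
  rcases Nat.eq_zero_or_pos (α i) with h | h
  · have : psi i α = 0 := by
      funext z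
      simp [psi, h]
    rw [this]
    exact Submodule.zero_mem _
  · have h1 := mono_mem (α - eu i)
    have h2 := sum_up (α - eu i) i
    rw [down_up α i h] at h2
    have h3 : (((∑ j, (α - eu i) j : ℕ)) : ℤ) = ((∑ j, α j : ℕ) : ℤ) + -1 := by
      rw [h2]; push_cast; ring
    rw [h3] at h1
    have : psi i α = ((α i : ℂ) / (((∑ j, α j : ℕ) : ℂ) + 4)) • mono (α - eu i) := rfl
    rw [this]
    exact Submodule.smul_mem _ _ h1

theorem mono_orth (hμ : Mom μ) (α β : Fin 5 → ℕ) (h : α ≠ β) :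
    ∫ z, mono α z * (starRingEnd ℂ) (mono β z) ∂μ = 0 := by
  rw [mom_eq hμ, if_neg h]

theorem good_coord (hμ : Mom μ) (i : Fin 5) :
    Good μ poly1 atTop (1 : ℤ) (fun z => z.1 i) := by
  have := hμ.prob
  refine good_of_orth μ poly1 atTop mono cont_mono (fun α => ((∑ j, α j : ℕ) : ℤ)) poly1_eq
    (mono_orth hμ) 1 _ (cont_coord i) (fun α => mono (α + eu i)) (fun α => cont_mono _)
    (fun α => up_mem i α) ?_ ?_
  · intro s t _ _
    simp [mono_up]
  · intro ε hε
    refine Filter.Eventually.of_forall fun k s _ => ?_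
    have h1 := int_nonneg μ (mono s)
    have h2 : ∀ z : Z, ‖z.1 i * mono s z - mono (s + eu i) z‖ ^ 2 = 0 := by
      intro z
      simp [mono_up]
    simp_rw [h2]
    simpa using by positivity

/-- the bound tends to zero -/
theorem ev_bound {ε : ℝ} (hε : 0 < ε) : ∀ᶠ k : ℤ in atTop, ∀ n : ℕ, (n : ℤ) = k →
    1 / ((n : ℝ) + 5) ≤ ε := by
  obtain ⟨N, hN⟩ := exists_nat_gt (1 / ε)
  filter_upwards [eventually_ge_atTop (N : ℤ)] with k hk n hn
  have h1 : N ≤ n := by
    rw [← hn] at hk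
    exact_mod_cast hk
  have h2 : (N : ℝ) ≤ n := by exact_mod_cast h1
  rw [div_le_iff₀ (by positivity)]
  rw [div_lt_iff₀ hε] at hN
  nlinarith

theorem good_conj (hμ : Mom μ) (i : Fin 5) :
    Good μ poly1 atTop (-1 : ℤ) (fun z => (starRingEnd ℂ) (z.1 i)) := by
  have := hμ.prob
  refine good_of_orth μ poly1 atTop mono cont_mono (fun α => ((∑ j, α j : ℕ) : ℤ)) poly1_eq
    (mono_orth hμ) (-1) _ (Complex.continuous_conj.comp (cont_coord i)) (psi i)
    (fun α => cont_psi i α) (fun α => psi_mem i α) ?_ ?_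
  · intro s t hst hne
    have h1 : ∑ j, s j = ∑ j, t j := by exact_mod_cast hst
    exact er_orth hμ i s t h1 hne
  · intro ε hε
    filter_upwards [ev_bound hε] with k hk s hs
    refine (er_sq hμ i s).trans ?_
    have h1 := int_nonneg μ (mono s)
    have h2 := hk (∑ j, s j) hs
    exact mul_le_mul_of_nonneg_right h2 h1

theorem asym_one (hμ : Mom μ) (m : ℤ) (g : Z → ℂ) (cg : Continuous g)
    (hg : ∀ (t : Circle) z, g (rot t z) = (t : ℂ) ^ m * g z) : Good μ poly1 atTop m g := by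
  have := hμ.prob
  refine good_of_hom μ poly1 atTop poly1_cont
    (fun m => tendsto_atTop_add_const_right _ m tendsto_id) (T := Circle) rot
    (fun m t => (t : ℂ) ^ m) (fun m n t => zpow_add₀ (Circle.coe_ne_zero t) m n)
    (fun t => zpow_zero _) iso_circle
    (Set.range fun i : Fin 5 => (⟨fun z => z.1 i, cont_coord i⟩ : C(Z, ℂ))) ?_ ?_ m g cg hg
  · rintro f (⟨i, rfl⟩ | hf)
    · refine ⟨1, fun t z => ?_, good_coord hμ i⟩
      simp [rot]
    · rw [Set.mem_star] at hf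
      obtain ⟨i, hi⟩ := hf
      have hf2 : ∀ z, f z = (starRingEnd ℂ) (z.1 i) := by
        intro z
        have h1 := congrArg (fun h : C(Z, ℂ) => (starRingEnd ℂ) (h z)) hi
        simp only [ContinuousMap.coe_mk, ContinuousMap.star_apply] at h1
        rw [h1]
        simp
      refine ⟨-1, fun t z => ?_, ?_⟩
      · rw [hf2, hf2]
        simp only [rot, map_mul]
        rw [zpow_neg_one, ← Circle.coe_inv_eq_conj, Circle.coe_inv]
      · have : (f : Z → ℂ) = fun z => (starRingEnd ℂ) (z.1 i) := funext hf2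
        rw [this]
        exact good_conj hμ i
  · intro x y hxy
    by_contra hcon
    push Not at hcon
    apply hxy
    apply Subtype.ext
    funext i
    exact hcon _ ⟨i, rfl⟩

/-! ### two variables -/

/-- product monomials -/
def mono2 (s : (Fin 5 → ℕ) × (Fin 5 → ℕ)) (p : Z × Z) : ℂ := mono s.1 p.1 * mono s.2 p.2

/-- bidegree -/
def deg2 (s : (Fin 5 → ℕ) × (Fin 5 → ℕ)) : ℤ × ℤ :=
  (((∑ j, s.1 j : ℕ) : ℤ), ((∑ j, s.2 j : ℕ) : ℤ))

/-- polynomials of given bidegree -/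
def H2 (k : ℤ × ℤ) : Submodule ℂ (Z × Z → ℂ) := poly2 k.1 k.2

theorem cont_mono2 (s : (Fin 5 → ℕ) × (Fin 5 → ℕ)) : Continuous (mono2 s) :=
  ((cont_mono _).comp continuous_fst).mul ((cont_mono _).comp continuous_snd)

theorem H2_eq (k : ℤ × ℤ) : H2 k = Submodule.span ℂ (mono2 '' {s | deg2 s = k}) := by
  unfold H2 poly2
  congr 1
  ext u
  constructor
  · rintro ⟨α, β, h1, h2, rfl⟩
    exact ⟨(α, β), Prod.ext h1 h2, rfl⟩
  · rintro ⟨⟨α, β⟩, h, rfl⟩
    exact ⟨α, β, congrArg Prod.fst h, congrArg Prod.snd h, rfl⟩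

theorem H2_cont (k : ℤ × ℤ) (u : Z × Z → ℂ) (hu : u ∈ H2 k) : Continuous u := by
  rw [H2_eq] at hu
  refine Submodule.span_induction (p := fun u _ => Continuous u) ?_ ?_ ?_ ?_ hu
  · rintro x ⟨α, _, rfl⟩
    exact cont_mono2 α
  · exact continuous_const
  · intro x y _ _ hx hy
    exact hx.add hy
  · intro a x _ hx
    exact continuous_const.mul hx

/-- tensor products of polynomials -/
theorem tensor_mem (k l : ℤ) (f g : Z → ℂ) (hf : f ∈ poly1 k) (hg : g ∈ poly1 l) :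
    (fun p : Z × Z => f p.1 * g p.2) ∈ H2 (k, l) := by
  refine Submodule.span_induction
    (p := fun f _ => (fun p : Z × Z => f p.1 * g p.2) ∈ H2 (k, l)) ?_ ?_ ?_ ?_ hf
  · rintro f ⟨α, hα, rfl⟩
    refine Submodule.span_induction
      (p := fun g _ => (fun p : Z × Z => mono α p.1 * g p.2) ∈ H2 (k, l)) ?_ ?_ ?_ ?_ hg
    · rintro g ⟨β, hβ, rfl⟩
      exact Submodule.subset_span ⟨α, β, hα, hβ, rfl⟩
    · refine (congrArg (· ∈ H2 (k, l)) ?_).mp (Submodule.zero_mem (H2 (k, l)))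
      funext p
      simp
    · intro x y _ _ hx hy
      have h := Submodule.add_mem _ hx hy
      refine (congrArg (· ∈ H2 (k, l)) ?_).mp h
      funext p
      simp only [Pi.add_apply]
      ring
    · intro a x _ hx
      have h := Submodule.smul_mem _ a hx
      refine (congrArg (· ∈ H2 (k, l)) ?_).mp h
      funext p
      simp only [Pi.smul_apply, smul_eq_mul]
      ring
  · refine (congrArg (· ∈ H2 (k, l)) ?_).mp (Submodule.zero_mem (H2 (k, l)))
    funext p
    simp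
  · intro x y _ _ hx hy
    have h := Submodule.add_mem _ hx hy
    refine (congrArg (· ∈ H2 (k, l)) ?_).mp h
    funext p
    simp only [Pi.add_apply]
    ring
  · intro a x _ hx
    have h := Submodule.smul_mem _ a hx
    refine (congrArg (· ∈ H2 (k, l)) ?_).mp h
    funext p
    simp only [Pi.smul_apply, smul_eq_mul]
    ring

theorem inner_tensor (hμ : Mom μ) (f g f' g' : Z → ℂ) :
    ∫ p, (f p.1 * g p.2) * (starRingEnd ℂ) (f' p.1 * g' p.2) ∂(μ.prod μ) =
      (∫ z, f z * (starRingEnd ℂ) (f' z) ∂μ) * ∫ z, g z * (starRingEnd ℂ) (g' z) ∂μ := by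
  have := hμ.prob
  rw [← integral_prod_mul]
  refine integral_congr_ae (Filter.Eventually.of_forall fun p => ?_)
  simp only [map_mul]
  ring

theorem norm_tensor (hμ : Mom μ) (f g : Z → ℂ) :
    ∫ p, ‖f p.1 * g p.2‖ ^ 2 ∂(μ.prod μ) = (∫ z, ‖f z‖ ^ 2 ∂μ) * ∫ z, ‖g z‖ ^ 2 ∂μ := by
  have := hμ.prob
  rw [← integral_prod_mul]
  refine integral_congr_ae (Filter.Eventually.of_forall fun p => ?_)
  simp only [norm_mul]
  ring

theorem mono2_orth (hμ : Mom μ) (s t : (Fin 5 → ℕ) × (Fin 5 → ℕ)) (h : s ≠ t) :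
    ∫ z, mono2 s z * (starRingEnd ℂ) (mono2 t z) ∂(μ.prod μ) = 0 := by
  unfold mono2
  rw [inner_tensor hμ]
  by_cases h1 : s.1 = t.1
  · have h2 : s.2 ≠ t.2 := fun h2 => h (Prod.ext h1 h2)
    rw [mono_orth hμ _ _ h2, mul_zero]
  · rw [mono_orth hμ _ _ h1, zero_mul]

theorem good_coord_fst (hμ : Mom μ) (i : Fin 5) :
    Good (μ.prod μ) H2 atTop ((1 : ℤ), (0 : ℤ)) (fun z => z.1.1 i) := by
  have := hμ.prob
  refine good_of_orth (μ.prod μ) H2 atTop mono2 cont_mono2 deg2 H2_eq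
    (mono2_orth hμ) _ _ ((cont_coord i).comp continuous_fst)
    (fun s => mono2 (s.1 + eu i, s.2)) (fun α => cont_mono2 _) (fun s => ?_) ?_ ?_
  · have h := tensor_mem _ _ _ _ (up_mem i s.1) (mono_mem s.2)
    have h2 : deg2 s + ((1 : ℤ), (0 : ℤ)) = (((∑ j, s.1 j : ℕ) : ℤ) + 1, ((∑ j, s.2 j : ℕ) : ℤ)) := by
      simp [deg2]
    rw [h2]
    exact h
  · intro s t _ _
    simp [mono2, mono_up, mul_assoc]
  · intro ε hε
    refine Filter.Eventually.of_forall fun k s _ => ?_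
    have h1 := int_nonneg (μ.prod μ) (mono2 s)
    have h2 : ∀ z : Z × Z, ‖z.1.1 i * mono2 s z - mono2 (s.1 + eu i, s.2) z‖ ^ 2 = 0 := by
      intro z
      simp [mono2, mono_up, mul_assoc]
    simp_rw [h2]
    simpa using by positivity

theorem good_coord_snd (hμ : Mom μ) (i : Fin 5) :
    Good (μ.prod μ) H2 atTop ((0 : ℤ), (1 : ℤ)) (fun z => z.2.1 i) := by
  have := hμ.prob
  refine good_of_orth (μ.prod μ) H2 atTop mono2 cont_mono2 deg2 H2_eq
    (mono2_orth hμ) _ _ ((cont_coord i).comp continuous_snd)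
    (fun s => mono2 (s.1, s.2 + eu i)) (fun α => cont_mono2 _) (fun s => ?_) ?_ ?_
  · have h := tensor_mem _ _ _ _ (mono_mem s.1) (up_mem i s.2)
    have h2 : deg2 s + ((0 : ℤ), (1 : ℤ)) = (((∑ j, s.1 j : ℕ) : ℤ), ((∑ j, s.2 j : ℕ) : ℤ) + 1) := by
      simp [deg2]
    rw [h2]
    exact h
  · intro s t _ _
    simp [mono2, mono_up, mul_left_comm]
  · intro ε hε
    refine Filter.Eventually.of_forall fun k s _ => ?_
    have h1 := int_nonneg (μ.prod μ) (mono2 s)
    have h2 : ∀ z : Z × Z, ‖z.2.1 i * mono2 s z - mono2 (s.1, s.2 + eu i) z‖ ^ 2 = 0 := by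
      intro z
      simp [mono2, mono_up, mul_left_comm]
    simp_rw [h2]
    simpa using by positivity

theorem ev_fst {p : ℤ → Prop} (h : ∀ᶠ k : ℤ in atTop, p k) :
    ∀ᶠ k : ℤ × ℤ in atTop, p k.1 := by
  rw [← Filter.prod_atTop_atTop_eq]
  exact tendsto_fst.eventually h

theorem ev_snd {p : ℤ → Prop} (h : ∀ᶠ k : ℤ in atTop, p k) :
    ∀ᶠ k : ℤ × ℤ in atTop, p k.2 := by
  rw [← Filter.prod_atTop_atTop_eq]
  exact tendsto_snd.eventually h

theorem good_conj_fst (hμ : Mom μ) (i : Fin 5) :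
    Good (μ.prod μ) H2 atTop ((-1 : ℤ), (0 : ℤ)) (fun z => (starRingEnd ℂ) (z.1.1 i)) := by
  have := hμ.prob
  have hpt : ∀ (s : (Fin 5 → ℕ) × (Fin 5 → ℕ)) (z : Z × Z),
      (starRingEnd ℂ) (z.1.1 i) * mono2 s z - psi i s.1 z.1 * mono s.2 z.2 =
      er i s.1 z.1 * mono s.2 z.2 := by
    intro s z
    unfold er mono2
    ring
  refine good_of_orth (μ.prod μ) H2 atTop mono2 cont_mono2 deg2 H2_eq
    (mono2_orth hμ) _ _ (Complex.continuous_conj.comp ((cont_coord i).comp continuous_fst))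
    (fun s z => psi i s.1 z.1 * mono s.2 z.2)
    (fun s => ((cont_psi i _).comp continuous_fst).mul ((cont_mono _).comp continuous_snd))
    (fun s => ?_) ?_ ?_
  · have h := tensor_mem _ _ _ _ (psi_mem i s.1) (mono_mem s.2)
    have h2 : deg2 s + ((-1 : ℤ), (0 : ℤ)) =
        (((∑ j, s.1 j : ℕ) : ℤ) + -1, ((∑ j, s.2 j : ℕ) : ℤ)) := by
      simp [deg2]
    rw [h2]
    exact h
  · intro s t hst hne
    simp_rw [hpt]
    rw [inner_tensor hμ]
    by_cases h1 : s.1 = t.1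
    · have h2 : s.2 ≠ t.2 := fun h2 => hne (Prod.ext h1 h2)
      rw [mono_orth hμ _ _ h2, mul_zero]
    · have h3 : ∑ j, s.1 j = ∑ j, t.1 j := by
        have : (((∑ j, s.1 j : ℕ)) : ℤ) = ((∑ j, t.1 j : ℕ) : ℤ) := congrArg Prod.fst hst
        exact_mod_cast this
      rw [er_orth hμ i _ _ h3 h1, zero_mul]
  · intro ε hε
    filter_upwards [ev_fst (ev_bound hε)] with k hk s hs
    simp_rw [hpt]
    have e1 : ∫ z, ‖mono2 s z‖ ^ 2 ∂(μ.prod μ) =
        (∫ z, ‖mono s.1 z‖ ^ 2 ∂μ) * ∫ z, ‖mono s.2 z‖ ^ 2 ∂μ := norm_tensor hμ _ _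
    rw [norm_tensor hμ, e1]
    have h1 := int_nonneg μ (mono s.1)
    have h1' := int_nonneg μ (mono s.2)
    have h2 := hk (∑ j, s.1 j) (congrArg Prod.fst hs)
    rw [← mul_assoc]
    refine mul_le_mul_of_nonneg_right ((er_sq hμ i s.1).trans ?_) h1'
    exact mul_le_mul_of_nonneg_right h2 h1

theorem good_conj_snd (hμ : Mom μ) (i : Fin 5) :
    Good (μ.prod μ) H2 atTop ((0 : ℤ), (-1 : ℤ)) (fun z => (starRingEnd ℂ) (z.2.1 i)) := by
  have := hμ.prob
  have hpt : ∀ (s : (Fin 5 → ℕ) × (Fin 5 → ℕ)) (z : Z × Z),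
      (starRingEnd ℂ) (z.2.1 i) * mono2 s z - mono s.1 z.1 * psi i s.2 z.2 =
      mono s.1 z.1 * er i s.2 z.2 := by
    intro s z
    unfold er mono2
    ring
  refine good_of_orth (μ.prod μ) H2 atTop mono2 cont_mono2 deg2 H2_eq
    (mono2_orth hμ) _ _ (Complex.continuous_conj.comp ((cont_coord i).comp continuous_snd))
    (fun s z => mono s.1 z.1 * psi i s.2 z.2)
    (fun s => ((cont_mono _).comp continuous_fst).mul ((cont_psi i _).comp continuous_snd))
    (fun s => ?_) ?_ ?_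
  · have h := tensor_mem _ _ _ _ (mono_mem s.1) (psi_mem i s.2)
    have h2 : deg2 s + ((0 : ℤ), (-1 : ℤ)) =
        (((∑ j, s.1 j : ℕ) : ℤ), ((∑ j, s.2 j : ℕ) : ℤ) + -1) := by
      simp [deg2]
    rw [h2]
    exact h
  · intro s t hst hne
    simp_rw [hpt]
    rw [inner_tensor hμ]
    by_cases h1 : s.2 = t.2
    · have h2 : s.1 ≠ t.1 := fun h2 => hne (Prod.ext h2 h1)
      rw [mono_orth hμ _ _ h2, zero_mul]
    · have h3 : ∑ j, s.2 j = ∑ j, t.2 j := by
        have : (((∑ j, s.2 j : ℕ)) : ℤ) = ((∑ j, t.2 j : ℕ) : ℤ) := congrArg Prod.snd hst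
        exact_mod_cast this
      rw [er_orth hμ i _ _ h3 h1, mul_zero]
  · intro ε hε
    filter_upwards [ev_snd (ev_bound hε)] with k hk s hs
    simp_rw [hpt]
    have e1 : ∫ z, ‖mono2 s z‖ ^ 2 ∂(μ.prod μ) =
        (∫ z, ‖mono s.1 z‖ ^ 2 ∂μ) * ∫ z, ‖mono s.2 z‖ ^ 2 ∂μ := norm_tensor hμ _ _
    rw [norm_tensor hμ, e1]
    have h1 := int_nonneg μ (mono s.1)
    have h1' := int_nonneg μ (mono s.2)
    have h2 := hk (∑ j, s.2 j) (congrArg Prod.snd hs)
    have h3 : ε * ((∫ z, ‖mono s.1 z‖ ^ 2 ∂μ) * ∫ z, ‖mono s.2 z‖ ^ 2 ∂μ) =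
        (∫ z, ‖mono s.1 z‖ ^ 2 ∂μ) * (ε * ∫ z, ‖mono s.2 z‖ ^ 2 ∂μ) := by ring
    rw [h3]
    refine mul_le_mul_of_nonneg_left ((er_sq hμ i s.2).trans ?_) h1
    exact mul_le_mul_of_nonneg_right h2 h1'

theorem asym_two (hμ : Mom μ) (m : ℤ × ℤ) (g : Z × Z → ℂ) (cg : Continuous g)
    (hg : ∀ (t : Circle × Circle) (z : Z × Z), g (rot t.1 z.1, rot t.2 z.2) =
      ((t.1 : ℂ) ^ m.1 * (t.2 : ℂ) ^ m.2) * g z) : Good (μ.prod μ) H2 atTop m g := by
  have := hμ.prob
  refine good_of_hom (μ.prod μ) H2 atTop H2_cont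
    (fun m => tendsto_atTop_add_const_right _ m tendsto_id) (T := Circle × Circle)
    (fun t z => (rot t.1 z.1, rot t.2 z.2))
    (fun m t => (t.1 : ℂ) ^ m.1 * (t.2 : ℂ) ^ m.2) (fun m n t => ?_)
    (fun t => ?_) iso_torus
    ((Set.range fun i : Fin 5 => (⟨fun z => z.1.1 i, (cont_coord i).comp continuous_fst⟩ :
        C(Z × Z, ℂ))) ∪
      (Set.range fun i : Fin 5 => (⟨fun z => z.2.1 i, (cont_coord i).comp continuous_snd⟩ :
        C(Z × Z, ℂ)))) ?_ ?_ m g cg hg
  · rw [Prod.fst_add, Prod.snd_add, zpow_add₀ (Circle.coe_ne_zero t.1),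
      zpow_add₀ (Circle.coe_ne_zero t.2)]
    ring
  · simp
  · rintro f ((⟨i, rfl⟩ | ⟨i, rfl⟩) | hf)
    · refine ⟨(1, 0), fun t z => ?_, good_coord_fst hμ i⟩
      simp [rot]
    · refine ⟨(0, 1), fun t z => ?_, good_coord_snd hμ i⟩
      simp [rot]
    · rw [Set.mem_star] at hf
      rcases hf with ⟨i, hi⟩ | ⟨i, hi⟩
      · have hf2 : ∀ z, f z = (starRingEnd ℂ) (z.1.1 i) := by
          intro z
          have h1 := congrArg (fun h : C(Z × Z, ℂ) => (starRingEnd ℂ) (h z)) hi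
          simp only [ContinuousMap.coe_mk, ContinuousMap.star_apply] at h1
          rw [h1]
          simp
        refine ⟨(-1, 0), fun t z => ?_, ?_⟩
        · rw [hf2, hf2]
          simp only [rot, map_mul, zpow_zero, mul_one]
          rw [zpow_neg_one, ← Circle.coe_inv_eq_conj, Circle.coe_inv]
        · have : (f : Z × Z → ℂ) = fun z => (starRingEnd ℂ) (z.1.1 i) := funext hf2
          rw [this]
          exact good_conj_fst hμ i
      · have hf2 : ∀ z, f z = (starRingEnd ℂ) (z.2.1 i) := by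
          intro z
          have h1 := congrArg (fun h : C(Z × Z, ℂ) => (starRingEnd ℂ) (h z)) hi
          simp only [ContinuousMap.coe_mk, ContinuousMap.star_apply] at h1
          rw [h1]
          simp
        refine ⟨(0, -1), fun t z => ?_, ?_⟩
        · rw [hf2, hf2]
          simp only [rot, map_mul, zpow_zero, one_mul]
          rw [zpow_neg_one, ← Circle.coe_inv_eq_conj, Circle.coe_inv]
        · have : (f : Z × Z → ℂ) = fun z => (starRingEnd ℂ) (z.2.1 i) := funext hf2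
          rw [this]
          exact good_conj_snd hμ i
  · intro x y hxy
    by_contra hcon
    push Not at hcon
    apply hxy
    refine Prod.ext (Subtype.ext (funext fun i => ?_)) (Subtype.ext (funext fun i => ?_))
    · exact hcon _ (Or.inl ⟨i, rfl⟩)
    · exact hcon _ (Or.inr ⟨i, rfl⟩)

/-- asymptotic multiplicativity of Toeplitz quantization -/
theorem taskAsym : TaskAsym := by
  intro μ hμ
  refine ⟨fun m g cg hg ε hε => ?_, fun m n g cg hg ε hε => ?_⟩
  · obtain ⟨K, hK⟩ := Filter.eventually_atTop.1 (asym_one hμ m g cg hg ε hε)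
    exact ⟨K, fun k hk => hK k hk⟩
  · obtain ⟨K, hK⟩ := Filter.eventually_atTop.1
      (asym_two hμ (m, n) g cg (fun t z => hg t.1 t.2 z) ε hε)
    refine ⟨max K.1 K.2, fun k l hk hl u hu => ?_⟩
    exact hK (k, l) ⟨(le_max_left _ _).trans hk, (le_max_right _ _).trans hl⟩ u hu

end Pool.Agent.TH225.SDK2
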